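import Mathlib

open MeasureTheory Set
open scoped ENNReal

namespace Pool.Agent.GapScaling

/-- The truncated gap integral `G_p^t(f, Ω)` of a map `f` from `Ω ⊆ ℝ^m` to a metric space: the
integral of `(d(f y, f x) - t)^p / |y - x|^(2m)` over the pairs `x, y ∈ Ω` with
`d(f y, f x) ≥ t` (and `0 ^ 0 = 1`). -/
noncomputable def gap {m : ℕ} {N : Type*} [MetricSpace N] (p t : ℝ)
    (f : EuclideanSpace ℝ (Fin m) → N) (Ω : Set (EuclideanSpace ℝ (Fin m))) : ℝ≥0∞ :=
  ∫⁻ x in Ω, ∫⁻ y in Ω,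
    if t ≤ dist (f y) (f x) then
      ENNReal.ofReal ((dist (f y) (f x) - t) ^ p / ‖y - x‖ ^ (2 * m)) else 0

/-- The scaling property of Q1 for the dimension `m`, the exponent `p` and the target `N`: there
is a constant `C` such that the inequality holds for every convex `Ω ⊆ ℝ^m`, every map `f`
measurable on `Ω` and all `0 < δ < ε`. -/
def ScalingHolds (m : ℕ) (p : ℝ) (N : Type*) [MetricSpace N] [MeasurableSpace N] : Prop :=
  ∃ C : ℝ, 0 < C ∧ ∀ Ω : Set (EuclideanSpace ℝ (Fin m)), Convex ℝ Ω →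
    ∀ f : EuclideanSpace ℝ (Fin m) → N, Measurable (fun x : Ω => f x) →
      ∀ δ ε : ℝ, 0 < δ → δ < ε →
        gap p ε f Ω ≤ ENNReal.ofReal (C * (δ / ε) ^ ((m : ℝ) - p)) * gap p δ f Ω

end Pool.Agent.GapScaling
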