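import Mathlib
import Pool.Agent.GapScaling.Defs

open MeasureTheory Set
open scoped ENNReal

namespace Pool.Agent.GapScaling

section general

variable {m : ℕ}

/-- scaling of the Lebesgue integral -/
theorem lintegral_smul_scale (g : EuclideanSpace ℝ (Fin m) → ℝ≥0∞) (hg : Measurable g)
    (k : ℝ) (hk : 0 < k) :
    ∫⁻ z, g ((1 / k) • z) = ENNReal.ofReal (k ^ m) * ∫⁻ w, g w := by
  have h1 := Measure.map_addHaar_smul (volume : Measure (EuclideanSpace ℝ (Fin m)))
    (r := 1 / k) (by positivity)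
  have h2 : ∫⁻ z, g ((1 / k) • z) = ∫⁻ w, g w ∂(Measure.map ((1 / k) • ·)
      (volume : Measure (EuclideanSpace ℝ (Fin m)))) := by
    rw [lintegral_map hg (measurable_const_smul _)]
  rw [h2, h1, lintegral_smul_measure, smul_eq_mul]
  congr 1
  congr 1
  rw [finrank_euclideanSpace_fin, one_div, inv_pow, inv_inv, abs_of_pos (by positivity)]

/-- change of variables along the segment -/
theorem change_var (H : EuclideanSpace ℝ (Fin m) → EuclideanSpace ℝ (Fin m) → ℝ≥0∞)
    (hH : Measurable (Function.uncurry H)) (s k : ℝ) (hk : 0 < k) :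
    ∫⁻ x, ∫⁻ y, H (x + s • (y - x)) (x + (s + 1 / k) • (y - x))
      = ENNReal.ofReal (k ^ m) * ∫⁻ u, ∫⁻ v, H u v := by
  have hmeas : ∀ a b : ℝ, Measurable (fun q : EuclideanSpace ℝ (Fin m) × EuclideanSpace ℝ (Fin m) =>
      H (q.1 + a • q.2) (q.1 + b • q.2)) := by
    intro a b
    have : (fun q : EuclideanSpace ℝ (Fin m) × EuclideanSpace ℝ (Fin m) =>
      H (q.1 + a • q.2) (q.1 + b • q.2)) = (Function.uncurry H) ∘
        (fun q => (q.1 + a • q.2, q.1 + b • q.2)) := rfl
    rw [this]
    apply hH.comp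
    exact (measurable_fst.add (measurable_snd.const_smul a)).prodMk
      (measurable_fst.add (measurable_snd.const_smul b))
  have step1 : ∀ x : EuclideanSpace ℝ (Fin m),
      ∫⁻ y, H (x + s • (y - x)) (x + (s + 1 / k) • (y - x))
        = ∫⁻ z, H (x + s • z) (x + (s + 1 / k) • z) := by
    intro x
    rw [← lintegral_add_left_eq_self (μ := (volume : Measure (EuclideanSpace ℝ (Fin m))))
      (fun y => H (x + s • (y - x)) (x + (s + 1 / k) • (y - x))) x]
    simp only [add_sub_cancel_left]
  simp_rw [step1]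
  rw [lintegral_lintegral_swap (hmeas s (s + 1 / k)).aemeasurable]
  have step3 : ∀ z : EuclideanSpace ℝ (Fin m),
      ∫⁻ x, H (x + s • z) (x + (s + 1 / k) • z) = ∫⁻ u, H u (u + (1 / k) • z) := by
    intro z
    rw [← lintegral_add_right_eq_self (μ := (volume : Measure (EuclideanSpace ℝ (Fin m))))
      (fun u => H u (u + (1 / k) • z)) (s • z)]
    apply lintegral_congr
    intro x
    rw [add_smul, add_assoc]
  simp_rw [step3]
  have hm0 : Measurable (fun q : EuclideanSpace ℝ (Fin m) × EuclideanSpace ℝ (Fin m) =>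
      H q.1 (q.1 + (1 / k) • q.2)) := by
    have := hmeas 0 (1 / k)
    simpa using this
  rw [← lintegral_lintegral_swap hm0.aemeasurable]
  have step5 : ∀ u : EuclideanSpace ℝ (Fin m),
      ∫⁻ z, H u (u + (1 / k) • z) = ENNReal.ofReal (k ^ m) * ∫⁻ v, H u v := by
    intro u
    have hmu : Measurable (fun w => H u (u + w)) := by
      have : (fun w => H u (u + w)) = (Function.uncurry H) ∘ (fun w => (u, u + w)) := rfl
      rw [this]
      exact hH.comp (measurable_const.prodMk (measurable_const.add measurable_id))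
    rw [lintegral_smul_scale (fun w => H u (u + w)) hmu k hk]
    rw [lintegral_add_left_eq_self (fun v => H u v) u]
  simp_rw [step5]
  rw [lintegral_const_mul' _ _ ENNReal.ofReal_ne_top]

/-- double set integrals as integrals of an indicator -/
theorem set_double (Ω : Set (EuclideanSpace ℝ (Fin m))) (hΩ : MeasurableSet Ω)
    (g : EuclideanSpace ℝ (Fin m) → EuclideanSpace ℝ (Fin m) → ℝ≥0∞) :
    ∫⁻ x in Ω, ∫⁻ y in Ω, g x y
      = ∫⁻ x, ∫⁻ y, (Ω ×ˢ Ω).indicator (fun q => g q.1 q.2) (x, y) := by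
  rw [← lintegral_indicator hΩ]
  apply lintegral_congr
  intro x
  by_cases hx : x ∈ Ω
  · rw [indicator_of_mem hx, ← lintegral_indicator hΩ]
    apply lintegral_congr
    intro y
    by_cases hy : y ∈ Ω
    · rw [indicator_of_mem hy, indicator_of_mem (show (x, y) ∈ Ω ×ˢ Ω from ⟨hx, hy⟩)]
    · rw [indicator_of_notMem hy, indicator_of_notMem (fun h : (x, y) ∈ Ω ×ˢ Ω => hy h.2)]
  · rw [indicator_of_notMem hx]
    symm
    rw [lintegral_eq_zero_iff' (by
      apply Measurable.aemeasurable
      have : (fun y => (Ω ×ˢ Ω).indicator (fun q => g q.1 q.2) (x, y)) = fun _ => 0 := by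
        funext y
        exact indicator_of_notMem (fun h : (x, y) ∈ Ω ×ˢ Ω => hx h.1) _
      rw [this]
      exact measurable_const)]
    filter_upwards with y
    exact indicator_of_notMem (fun h : (x, y) ∈ Ω ×ˢ Ω => hx h.1) _

variable {N : Type*} [MetricSpace N]

/-- The kernel with exponent one. -/
noncomputable def K1 (t : ℝ) (f : EuclideanSpace ℝ (Fin m) → N)
    (q : EuclideanSpace ℝ (Fin m) × EuclideanSpace ℝ (Fin m)) : ℝ≥0∞ :=
  ENNReal.ofReal (max (dist (f q.2) (f q.1) - t) 0 / ‖q.2 - q.1‖ ^ (2 * m))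

theorem gap_one_eq (t : ℝ) (f : EuclideanSpace ℝ (Fin m) → N)
    (Ω : Set (EuclideanSpace ℝ (Fin m))) (hΩ : MeasurableSet Ω) :
    gap 1 t f Ω = ∫⁻ x, ∫⁻ y, (Ω ×ˢ Ω).indicator (K1 t f) (x, y) := by
  rw [← set_double Ω hΩ (fun x y => K1 t f (x, y))]
  unfold gap
  apply lintegral_congr
  intro x
  apply lintegral_congr
  intro y
  unfold K1
  split_ifs with h
  · rw [Real.rpow_one, max_eq_left (by simpa using h)]
  · rw [max_eq_right (by simpa using (not_le.mp h).le), zero_div, ENNReal.ofReal_zero]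

theorem K1_measurable [MeasurableSpace N] [BorelSpace N] [SecondCountableTopology N]
    (t : ℝ) (f : EuclideanSpace ℝ (Fin m) → N) (hf : Measurable f) : Measurable (K1 t f) := by
  unfold K1
  apply Measurable.ennreal_ofReal
  apply Measurable.div
  · apply Measurable.max _ measurable_const
    apply Measurable.sub_const
    exact (hf.comp measurable_snd).dist (hf.comp measurable_fst)
  · exact ((measurable_snd.sub measurable_fst).norm).pow_const _

theorem chain_pointwise (t : ℝ) (f : EuclideanSpace ℝ (Fin m) → N)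
    (Ω : Set (EuclideanSpace ℝ (Fin m))) (hΩ : Convex ℝ Ω) (k : ℕ) (hk : 0 < k)
    (x y : EuclideanSpace ℝ (Fin m)) :
    (Ω ×ˢ Ω).indicator (K1 (k * t) f) (x, y) ≤ ∑ i ∈ Finset.range k,
      ENNReal.ofReal (((k : ℝ) ^ (2 * m))⁻¹) * (Ω ×ˢ Ω).indicator (K1 t f)
        (x + ((i : ℝ) / k) • (y - x), x + ((i : ℝ) / k + 1 / k) • (y - x)) := by
  by_cases hxy : (x, y) ∈ Ω ×ˢ Ω
  · have hkR : (0 : ℝ) < k := by exact_mod_cast hk
    have hmem : ∀ s : ℝ, 0 ≤ s → s ≤ 1 → x + s • (y - x) ∈ Ω := by
      intro s hs0 hs1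
      exact hΩ.add_smul_sub_mem hxy.1 hxy.2 ⟨hs0, hs1⟩
    have hmem2 : ∀ i ∈ Finset.range k,
        (x + ((i : ℝ) / k) • (y - x), x + ((i : ℝ) / k + 1 / k) • (y - x)) ∈ Ω ×ˢ Ω := by
      intro i hi
      have hi' : (i : ℝ) + 1 ≤ k := by exact_mod_cast Finset.mem_range.mp hi
      constructor
      · apply hmem
        · positivity
        · rw [div_le_one hkR]; linarith
      · apply hmem
        · positivity
        · rw [← add_div, div_le_one hkR]; exact hi'
    rw [indicator_of_mem hxy]
    have h1 : ∀ i ∈ Finset.range k, ENNReal.ofReal (((k : ℝ) ^ (2 * m))⁻¹) *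
        (Ω ×ˢ Ω).indicator (K1 t f)
          (x + ((i : ℝ) / k) • (y - x), x + ((i : ℝ) / k + 1 / k) • (y - x))
        = ENNReal.ofReal (max (dist (f (x + ((i : ℝ) / k + 1 / k) • (y - x)))
            (f (x + ((i : ℝ) / k) • (y - x))) - t) 0 / ‖y - x‖ ^ (2 * m)) := by
      intro i hi
      rw [indicator_of_mem (hmem2 i hi), K1, ← ENNReal.ofReal_mul (by positivity)]
      congr 1
      have h2 : x + ((i : ℝ) / k + 1 / k) • (y - x) - (x + ((i : ℝ) / k) • (y - x))
          = (1 / (k : ℝ)) • (y - x) := by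
        rw [add_smul]; abel
      simp only
      rw [h2, norm_smul, mul_pow, Real.norm_of_nonneg (by positivity : (0:ℝ) ≤ 1 / k)]
      have : ((1 / (k : ℝ)) ^ (2 * m)) = ((k : ℝ) ^ (2 * m))⁻¹ := by
        rw [one_div, inv_pow]
      rw [this, div_mul_eq_div_div, div_inv_eq_mul]
      field_simp
    rw [Finset.sum_congr rfl h1, ← ENNReal.ofReal_sum_of_nonneg (fun i _ => by positivity)]
    unfold K1
    apply ENNReal.ofReal_le_ofReal
    rw [← Finset.sum_div]
    apply div_le_div_of_nonneg_right _ (by positivity)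
    apply max_le _ (Finset.sum_nonneg fun i _ => le_max_right _ _)
    have h3 := dist_le_range_sum_dist (fun i : ℕ => f (x + ((i : ℝ) / k) • (y - x))) k
    simp only [Nat.cast_zero, zero_div, zero_smul, add_zero] at h3
    rw [div_self hkR.ne', one_smul, add_sub_cancel] at h3
    have h4 : ∑ i ∈ Finset.range k, (dist (f (x + ((i : ℝ) / k) • (y - x)))
        (f (x + (((i + 1 : ℕ) : ℝ) / k) • (y - x))) - t) ≤
        ∑ i ∈ Finset.range k, max (dist (f (x + ((i : ℝ) / k + 1 / k) • (y - x)))
          (f (x + ((i : ℝ) / k) • (y - x))) - t) 0 := by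
      apply Finset.sum_le_sum
      intro i _
      have : (((i + 1 : ℕ) : ℝ) / k) = (i : ℝ) / k + 1 / k := by push_cast; ring
      rw [this, dist_comm]
      exact le_max_left _ _
    rw [Finset.sum_sub_distrib, Finset.sum_const, Finset.card_range, nsmul_eq_mul] at h4
    simp only
    rw [dist_comm]
    linarith
  · rw [indicator_of_notMem hxy]
    exact zero_le

theorem chain [MeasurableSpace N] [BorelSpace N] [SecondCountableTopology N]
    (t : ℝ) (f : EuclideanSpace ℝ (Fin m) → N) (hf : Measurable f)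
    (Ω : Set (EuclideanSpace ℝ (Fin m))) (hΩ : Convex ℝ Ω) (hΩm : MeasurableSet Ω)
    (k : ℕ) (hk : 0 < k) :
    gap 1 (k * t) f Ω ≤ ENNReal.ofReal ((k : ℝ) / (k : ℝ) ^ m) * gap 1 t f Ω := by
  have hkR : (0 : ℝ) < k := by exact_mod_cast hk
  rw [gap_one_eq _ f Ω hΩm, gap_one_eq _ f Ω hΩm]
  have hHm : Measurable ((Ω ×ˢ Ω).indicator (K1 t f)) :=
    (K1_measurable t f hf).indicator (hΩm.prod hΩm)
  have hmeas : ∀ a b : ℝ, Measurable (fun q : EuclideanSpace ℝ (Fin m) × EuclideanSpace ℝ (Fin m) =>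
      (Ω ×ˢ Ω).indicator (K1 t f) (q.1 + a • (q.2 - q.1), q.1 + b • (q.2 - q.1))) := by
    intro a b
    apply hHm.comp
    exact (measurable_fst.add ((measurable_snd.sub measurable_fst).const_smul a)).prodMk
      (measurable_fst.add ((measurable_snd.sub measurable_fst).const_smul b))
  calc ∫⁻ x, ∫⁻ y, (Ω ×ˢ Ω).indicator (K1 (k * t) f) (x, y)
      ≤ ∫⁻ x, ∫⁻ y, ∑ i ∈ Finset.range k,
      ENNReal.ofReal (((k : ℝ) ^ (2 * m))⁻¹) * (Ω ×ˢ Ω).indicator (K1 t f)
        (x + ((i : ℝ) / k) • (y - x), x + ((i : ℝ) / k + 1 / k) • (y - x)) := by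
        apply lintegral_mono
        intro x
        apply lintegral_mono
        intro y
        exact chain_pointwise t f Ω hΩ k hk x y
    _ = ∑ i ∈ Finset.range k, ∫⁻ x, ∫⁻ y,
      ENNReal.ofReal (((k : ℝ) ^ (2 * m))⁻¹) * (Ω ×ˢ Ω).indicator (K1 t f)
        (x + ((i : ℝ) / k) • (y - x), x + ((i : ℝ) / k + 1 / k) • (y - x)) := by
        have h1 : ∀ x : EuclideanSpace ℝ (Fin m), ∫⁻ y, ∑ i ∈ Finset.range k,
          ENNReal.ofReal (((k : ℝ) ^ (2 * m))⁻¹) * (Ω ×ˢ Ω).indicator (K1 t f)
            (x + ((i : ℝ) / k) • (y - x), x + ((i : ℝ) / k + 1 / k) • (y - x))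
            = ∑ i ∈ Finset.range k, ∫⁻ y, ENNReal.ofReal (((k : ℝ) ^ (2 * m))⁻¹) *
              (Ω ×ˢ Ω).indicator (K1 t f)
            (x + ((i : ℝ) / k) • (y - x), x + ((i : ℝ) / k + 1 / k) • (y - x)) := by
          intro x
          rw [lintegral_finsetSum]
          intro i _
          exact ((hmeas _ _).comp (measurable_const.prodMk measurable_id)).const_mul _
        simp_rw [h1]
        rw [lintegral_finsetSum]
        intro i _
        exact Measurable.lintegral_prod_right' (f := fun q : EuclideanSpace ℝ (Fin m) ×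
          EuclideanSpace ℝ (Fin m) => ENNReal.ofReal (((k : ℝ) ^ (2 * m))⁻¹) *
          (Ω ×ˢ Ω).indicator (K1 t f)
          (q.1 + ((i : ℝ) / k) • (q.2 - q.1), q.1 + ((i : ℝ) / k + 1 / k) • (q.2 - q.1)))
          ((hmeas _ _).const_mul _)
    _ = ∑ i ∈ Finset.range k, ENNReal.ofReal (((k : ℝ) ^ (2 * m))⁻¹) *
          (ENNReal.ofReal ((k : ℝ) ^ m) * ∫⁻ x, ∫⁻ y, (Ω ×ˢ Ω).indicator (K1 t f) (x, y)) := by
        apply Finset.sum_congr rfl
        intro i _
        simp_rw [lintegral_const_mul' _ _ ENNReal.ofReal_ne_top]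
        congr 1
        exact change_var (fun u v => (Ω ×ˢ Ω).indicator (K1 t f) (u, v)) hHm ((i : ℝ) / k) k hkR
    _ = ENNReal.ofReal ((k : ℝ) / (k : ℝ) ^ m) *
          ∫⁻ x, ∫⁻ y, (Ω ×ˢ Ω).indicator (K1 t f) (x, y) := by
        rw [Finset.sum_const, Finset.card_range, ← mul_assoc, nsmul_eq_mul, ← mul_assoc,
          ← ENNReal.ofReal_mul (by positivity), ← ENNReal.ofReal_natCast k,
          ← ENNReal.ofReal_mul (by positivity)]
        congr 2
        rw [two_mul, pow_add]
        field_simp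

/-- comparison of two gap integrals from a pointwise comparison -/
theorem gap_le_of (p q s t c : ℝ) (f : EuclideanSpace ℝ (Fin m) → N)
    (Ω : Set (EuclideanSpace ℝ (Fin m))) (hc : 0 ≤ c)
    (h : ∀ d : ℝ, 0 ≤ d → s ≤ d → t ≤ d ∧ (d - s) ^ p ≤ c * (d - t) ^ q) :
    gap p s f Ω ≤ ENNReal.ofReal c * gap q t f Ω := by
  unfold gap
  rw [← lintegral_const_mul' _ _ ENNReal.ofReal_ne_top]
  apply lintegral_mono
  intro x
  simp only
  rw [← lintegral_const_mul' _ _ ENNReal.ofReal_ne_top]
  apply lintegral_mono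
  intro y
  simp only
  by_cases hs : s ≤ dist (f y) (f x)
  · obtain ⟨h1, h2⟩ := h _ dist_nonneg hs
    rw [if_pos hs, if_pos h1, ← ENNReal.ofReal_mul hc]
    apply ENNReal.ofReal_le_ofReal
    rw [← mul_div_assoc]
    exact div_le_div_of_nonneg_right h2 (by positivity)
  · rw [if_neg hs]
    exact zero_le

theorem gap_anti (p δ ε : ℝ) (hp : 0 ≤ p) (hδε : δ ≤ ε) (f : EuclideanSpace ℝ (Fin m) → N)
    (Ω : Set (EuclideanSpace ℝ (Fin m))) : gap p ε f Ω ≤ gap p δ f Ω := by
  have := gap_le_of p p ε δ 1 f Ω zero_le_one (by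
    intro d _ hd
    refine ⟨hδε.trans hd, ?_⟩
    rw [one_mul]
    exact Real.rpow_le_rpow (by linarith) (by linarith) hp)
  simpa using this

theorem gap_le_gap_one (p ε : ℝ) (hp0 : 0 ≤ p) (hp : p < 1) (hε : 0 < ε)
    (f : EuclideanSpace ℝ (Fin m) → N) (Ω : Set (EuclideanSpace ℝ (Fin m))) :
    gap p ε f Ω ≤ ENNReal.ofReal ((ε / 2) ^ (p - 1)) * gap 1 (ε / 2) f Ω := by
  apply gap_le_of p 1 ε (ε / 2) _ f Ω (by positivity)
  intro d hd0 hd
  refine ⟨by linarith, ?_⟩
  rw [Real.rpow_one]
  have h1 : 0 < d - ε / 2 := by linarith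
  have h2 : (d - ε) ^ p ≤ (d - ε / 2) ^ p := Real.rpow_le_rpow (by linarith) (by linarith) hp0
  have h3 : (d - ε / 2) ^ p = (d - ε / 2) ^ (p - 1) * (d - ε / 2) := by
    rw [← Real.rpow_add_one h1.ne']
    congr 1
    ring
  rw [h3] at h2
  refine h2.trans ?_
  apply mul_le_mul_of_nonneg_right _ h1.le
  exact Real.rpow_le_rpow_of_nonpos (by positivity) (by linarith) (by linarith)

/-- the truncated kernel -/
noncomputable def KA (t : ℝ) (f : EuclideanSpace ℝ (Fin m) → N)
    (q : EuclideanSpace ℝ (Fin m) × EuclideanSpace ℝ (Fin m)) : ℝ≥0∞ :=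
  ENNReal.ofReal (min (max (dist (f q.2) (f q.1) - t) 0) t / ‖q.2 - q.1‖ ^ (2 * m))

theorem gap_one_le [MeasurableSpace N] [BorelSpace N] [SecondCountableTopology N]
    (hm : 2 ≤ m) (D : ℝ) (hD : ∀ a b : N, dist a b ≤ D)
    (p t : ℝ) (hp0 : 0 ≤ p) (hp : p < 1) (ht : 0 < t)
    (f : EuclideanSpace ℝ (Fin m) → N) (hf : Measurable f)
    (Ω : Set (EuclideanSpace ℝ (Fin m))) (hΩ : Convex ℝ Ω) (hΩm : MeasurableSet Ω) :
    gap 1 t f Ω ≤ ENNReal.ofReal (2 * t ^ (1 - p)) * gap p t f Ω := by
  set A : ℝ≥0∞ := ∫⁻ x in Ω, ∫⁻ y in Ω, KA t f (x, y) with hA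
  have hG1 : ∀ s : ℝ, gap 1 s f Ω = ∫⁻ x in Ω, ∫⁻ y in Ω, K1 s f (x, y) := by
    intro s
    rw [gap_one_eq s f Ω hΩm, ← set_double Ω hΩm (fun x y => K1 s f (x, y))]
  have hsplit : gap 1 t f Ω ≤ A + gap 1 (2 * t) f Ω := by
    rw [hG1 t, hG1 (2 * t), hA]
    have hm2 : Measurable (K1 (2 * t) f) := K1_measurable _ f hf
    rw [← lintegral_add_right]
    · apply lintegral_mono
      intro x
      simp only
      rw [← lintegral_add_right]
      · apply lintegral_mono
        intro y
        simp only [K1, KA]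
        rw [← ENNReal.ofReal_add (by positivity) (by positivity), ← add_div]
        apply ENNReal.ofReal_le_ofReal
        apply div_le_div_of_nonneg_right _ (by positivity)
        rcases le_total (dist (f y) (f x) - t) 0 with h | h
        · rw [max_eq_right h]
          positivity
        · rw [max_eq_left h]
          rcases le_total (dist (f y) (f x) - t) t with h' | h'
          · rw [min_eq_left h']
            have : 0 ≤ max (dist (f y) (f x) - 2 * t) 0 := le_max_right _ _
            linarith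
          · rw [min_eq_right h']
            have : dist (f y) (f x) - 2 * t ≤ max (dist (f y) (f x) - 2 * t) 0 := le_max_left _ _
            linarith
      · exact hm2.comp (measurable_const.prodMk measurable_id)
    · exact hm2.lintegral_prod_right'
  have hchain := chain t f hf Ω hΩ hΩm 2 (by norm_num)
  have hhalf : gap 1 (2 * t) f Ω ≤ ENNReal.ofReal (1 / 2) * gap 1 t f Ω := by
    refine le_trans (by simpa using hchain) ?_
    apply mul_le_mul_left
    apply ENNReal.ofReal_le_ofReal
    have h4 : (4 : ℝ) ≤ 2 ^ m := by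
      calc (4 : ℝ) = 2 ^ 2 := by norm_num
        _ ≤ 2 ^ m := pow_le_pow_right₀ (by norm_num) hm
    rw [div_le_div_iff₀ (by positivity) (by norm_num)]
    linarith
  have hAp : A ≤ ENNReal.ofReal (t ^ (1 - p)) * gap p t f Ω := by
    rw [hA]
    unfold gap
    rw [← lintegral_const_mul' _ _ ENNReal.ofReal_ne_top]
    apply lintegral_mono
    intro x
    simp only
    rw [← lintegral_const_mul' _ _ ENNReal.ofReal_ne_top]
    apply lintegral_mono
    intro y
    simp only [KA]
    by_cases hs : t ≤ dist (f y) (f x)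
    · rw [if_pos hs, ← ENNReal.ofReal_mul (by positivity)]
      apply ENNReal.ofReal_le_ofReal
      rw [← mul_div_assoc]
      apply div_le_div_of_nonneg_right _ (by positivity)
      have h0 : 0 ≤ dist (f y) (f x) - t := by linarith
      rw [max_eq_left h0]
      set s := dist (f y) (f x) - t with hs'
      rcases le_total s t with h | h
      · rw [min_eq_left h]
        rcases eq_or_lt_of_le h0 with h1 | h1
        · rw [← h1]; positivity
        · calc s = s ^ (1 - p) * s ^ p := by
                rw [← Real.rpow_add h1]; simp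
            _ ≤ t ^ (1 - p) * s ^ p := by
                apply mul_le_mul_of_nonneg_right _ (by positivity)
                exact Real.rpow_le_rpow h0 h (by linarith)
      · rw [min_eq_right h]
        calc t = t ^ (1 - p) * t ^ p := by
                rw [← Real.rpow_add ht]; simp
            _ ≤ t ^ (1 - p) * s ^ p := by
                apply mul_le_mul_of_nonneg_left _ (by positivity)
                exact Real.rpow_le_rpow ht.le h hp0
    · rw [if_neg hs, mul_zero, max_eq_right (by linarith [not_le.mp hs]), min_eq_left ht.le,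
        zero_div, ENNReal.ofReal_zero]
  have hfin : gap 1 t f Ω ≤ 2 * A := by
    by_cases htop : gap 1 t f Ω = ∞
    · -- then A is infinite too
      have hM : gap 1 t f Ω ≤ ENNReal.ofReal (1 + |D| / t) * A := by
        rw [hG1 t, hA, ← lintegral_const_mul' _ _ ENNReal.ofReal_ne_top]
        apply lintegral_mono
        intro x
        simp only
        rw [← lintegral_const_mul' _ _ ENNReal.ofReal_ne_top]
        apply lintegral_mono
        intro y
        simp only [K1, KA]
        rw [← ENNReal.ofReal_mul (by positivity)]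
        apply ENNReal.ofReal_le_ofReal
        rw [← mul_div_assoc]
        apply div_le_div_of_nonneg_right _ (by positivity)
        set s := max (dist (f y) (f x) - t) 0 with hs
        have hs0 : 0 ≤ s := le_max_right _ _
        have hsD : s ≤ |D| := by
          apply max_le _ (abs_nonneg D)
          have := hD (f y) (f x)
          have := le_abs_self D
          linarith
        rcases le_total s t with h | h
        · rw [min_eq_left h]
          have : 0 ≤ |D| / t * s := by positivity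
          linarith
        · rw [min_eq_right h]
          have : |D| / t * t = |D| := by field_simp
          linarith
      rw [htop] at hM
      have hA' : A = ∞ := by
        by_contra hne
        exact (ENNReal.mul_lt_top ENNReal.ofReal_lt_top (lt_top_iff_ne_top.mpr hne)).ne
          (top_le_iff.mp hM)
      rw [hA']
      simp
    · have h1 : gap 1 t f Ω ≤ A + ENNReal.ofReal (1 / 2) * gap 1 t f Ω :=
        hsplit.trans (add_le_add le_rfl hhalf)
      by_cases hAtop : A = ∞
      · rw [hAtop]; simp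
      · have h2 : (gap 1 t f Ω).toReal ≤ A.toReal + 1 / 2 * (gap 1 t f Ω).toReal := by
          have h3 := ENNReal.toReal_mono (by
            apply ENNReal.add_ne_top.mpr
            exact ⟨hAtop, ENNReal.mul_ne_top ENNReal.ofReal_ne_top htop⟩) h1
          rw [ENNReal.toReal_add hAtop (ENNReal.mul_ne_top ENNReal.ofReal_ne_top htop),
            ENNReal.toReal_mul, ENNReal.toReal_ofReal (by norm_num)] at h3
          exact h3
        rw [← ENNReal.ofReal_toReal htop, ← ENNReal.ofReal_toReal hAtop]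
        have : (2 : ℝ≥0∞) = ENNReal.ofReal 2 := by simp
        rw [this, ← ENNReal.ofReal_mul (by norm_num)]
        apply ENNReal.ofReal_le_ofReal
        linarith
  calc gap 1 t f Ω ≤ 2 * A := hfin
    _ ≤ 2 * (ENNReal.ofReal (t ^ (1 - p)) * gap p t f Ω) := by
        apply mul_le_mul_right
        exact hAp
    _ = ENNReal.ofReal (2 * t ^ (1 - p)) * gap p t f Ω := by
        rw [← mul_assoc, ENNReal.ofReal_mul (by norm_num)]
        simp

theorem real_ineq (p δ ε : ℝ) (hp0 : 0 ≤ p) (hp : p < 1) (hδ : 0 < δ) (hδε : δ ≤ ε / 2)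
    (hm : 2 ≤ m) (k : ℕ) (hk : 0 < k) (hk2 : ε / (4 * δ) ≤ k) :
    (ε / 2) ^ (p - 1) * (((k : ℝ) / (k : ℝ) ^ m) * (2 * δ ^ (1 - p))) ≤
      4 ^ m * (δ / ε) ^ ((m : ℝ) - p) := by
  have hε : 0 < ε := by linarith
  have hkR : (0 : ℝ) < k := by exact_mod_cast hk
  obtain ⟨n, rfl⟩ : ∃ n, m = n + 1 := ⟨m - 1, by omega⟩
  have h1 : (k : ℝ) / (k : ℝ) ^ (n + 1) ≤ (4 * (δ / ε)) ^ n := by
    have : (k : ℝ) / (k : ℝ) ^ (n + 1) = (1 / (k : ℝ)) ^ n := by
      rw [pow_succ, one_div, inv_pow]
      field_simp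
    rw [this]
    apply pow_le_pow_left₀ (by positivity)
    rw [div_le_iff₀ hkR]
    have h2 : 4 * (δ / ε) * (ε / (4 * δ)) = 1 := by field_simp
    calc (1 : ℝ) = 4 * (δ / ε) * (ε / (4 * δ)) := h2.symm
      _ ≤ 4 * (δ / ε) * k := by
        apply mul_le_mul_of_nonneg_left hk2 (by positivity)
  have h3 : (ε / 2) ^ (p - 1) * δ ^ (1 - p) ≤ 2 * (δ / ε) ^ (1 - p) := by
    have h4 : (ε / 2) ^ (p - 1) = (2 / ε) ^ (1 - p) := by
      rw [show p - 1 = -(1 - p) by ring, Real.rpow_neg (by positivity), ← Real.inv_rpow (by positivity),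
        inv_div]
    rw [h4, ← Real.mul_rpow (by positivity) (by positivity)]
    have h5 : 2 / ε * δ = 2 * (δ / ε) := by ring
    rw [h5, Real.mul_rpow (by norm_num) (by positivity)]
    apply mul_le_mul_of_nonneg_right _ (by positivity)
    calc (2 : ℝ) ^ (1 - p) ≤ 2 ^ (1 : ℝ) := Real.rpow_le_rpow_of_exponent_le (by norm_num) (by linarith)
      _ = 2 := Real.rpow_one 2
  have h6 : (δ / ε) ^ (((n + 1 : ℕ) : ℝ) - p) = (δ / ε) ^ n * (δ / ε) ^ (1 - p) := by
    rw [← Real.rpow_natCast (δ / ε) n, ← Real.rpow_add (by positivity)]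
    congr 1
    push_cast
    ring
  rw [h6]
  calc (ε / 2) ^ (p - 1) * (((k : ℝ) / (k : ℝ) ^ (n + 1)) * (2 * δ ^ (1 - p)))
      = 2 * ((ε / 2) ^ (p - 1) * δ ^ (1 - p)) * ((k : ℝ) / (k : ℝ) ^ (n + 1)) := by ring
    _ ≤ 2 * (2 * (δ / ε) ^ (1 - p)) * (4 * (δ / ε)) ^ n := by
        gcongr
    _ = 4 ^ (n + 1) * ((δ / ε) ^ n * (δ / ε) ^ (1 - p)) := by
        rw [mul_pow, pow_succ]
        ring

theorem scaling_measurable [MeasurableSpace N] [BorelSpace N] [SecondCountableTopology N]
    (hm : 2 ≤ m) (D : ℝ) (hD : ∀ a b : N, dist a b ≤ D)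
    (p : ℝ) (hp0 : 0 ≤ p) (hp : p < 1)
    (f : EuclideanSpace ℝ (Fin m) → N) (hf : Measurable f)
    (Ω : Set (EuclideanSpace ℝ (Fin m))) (hΩ : Convex ℝ Ω) (hΩm : MeasurableSet Ω)
    (δ ε : ℝ) (hδ : 0 < δ) (hδε : δ < ε) :
    gap p ε f Ω ≤ ENNReal.ofReal (4 ^ m * (δ / ε) ^ ((m : ℝ) - p)) * gap p δ f Ω := by
  have hε : 0 < ε := by linarith
  rcases le_total δ (ε / 2) with h | h
  · -- the small case
    set k : ℕ := ⌊ε / 2 / δ⌋₊ with hk
    have hx1 : 1 ≤ ε / 2 / δ := by rw [le_div_iff₀ hδ]; linarith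
    have hk1 : 1 ≤ k := by
      rw [hk, Nat.one_le_floor_iff]; exact hx1
    have hkle : (k : ℝ) * δ ≤ ε / 2 := by
      have := Nat.floor_le (show 0 ≤ ε / 2 / δ by positivity)
      rw [← le_div_iff₀ hδ]
      exact this
    have hkge : ε / (4 * δ) ≤ k := by
      have h1 := Nat.lt_floor_add_one (ε / 2 / δ)
      have h2 : (1 : ℝ) ≤ k := by exact_mod_cast hk1
      rw [← hk] at h1
      have h3 : ε / (4 * δ) = (ε / 2 / δ) / 2 := by
        field_simp
        norm_num
      rw [h3]
      linarith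
    calc gap p ε f Ω ≤ ENNReal.ofReal ((ε / 2) ^ (p - 1)) * gap 1 (ε / 2) f Ω :=
          gap_le_gap_one p ε hp0 hp hε f Ω
      _ ≤ ENNReal.ofReal ((ε / 2) ^ (p - 1)) * gap 1 (k * δ) f Ω := by
          apply mul_le_mul_right
          exact gap_anti 1 (k * δ) (ε / 2) zero_le_one hkle f Ω
      _ ≤ ENNReal.ofReal ((ε / 2) ^ (p - 1)) *
            (ENNReal.ofReal ((k : ℝ) / (k : ℝ) ^ m) * gap 1 δ f Ω) := by
          apply mul_le_mul_right
          exact chain δ f hf Ω hΩ hΩm k hk1
      _ ≤ ENNReal.ofReal ((ε / 2) ^ (p - 1)) *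
            (ENNReal.ofReal ((k : ℝ) / (k : ℝ) ^ m) *
              (ENNReal.ofReal (2 * δ ^ (1 - p)) * gap p δ f Ω)) := by
          apply mul_le_mul_right
          apply mul_le_mul_right
          exact gap_one_le hm D hD p δ hp0 hp hδ f hf Ω hΩ hΩm
      _ = ENNReal.ofReal ((ε / 2) ^ (p - 1) * (((k : ℝ) / (k : ℝ) ^ m) * (2 * δ ^ (1 - p)))) *
            gap p δ f Ω := by
          rw [ENNReal.ofReal_mul (p := (ε / 2) ^ (p - 1)) (by positivity),
            ENNReal.ofReal_mul (p := (k : ℝ) / (k : ℝ) ^ m) (by positivity), mul_assoc, mul_assoc]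
      _ ≤ ENNReal.ofReal (4 ^ m * (δ / ε) ^ ((m : ℝ) - p)) * gap p δ f Ω := by
          apply mul_le_mul_left
          apply ENNReal.ofReal_le_ofReal
          exact real_ineq p δ ε hp0 hp hδ h hm k hk1 hkge
  · -- the comparable case
    calc gap p ε f Ω ≤ gap p δ f Ω := gap_anti p δ ε hp0 hδε.le f Ω
      _ = ENNReal.ofReal 1 * gap p δ f Ω := by simp
      _ ≤ ENNReal.ofReal (4 ^ m * (δ / ε) ^ ((m : ℝ) - p)) * gap p δ f Ω := by
          apply mul_le_mul_left
          apply ENNReal.ofReal_le_ofReal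
          have h1 : (1 / 2 : ℝ) ≤ δ / ε := by
            rw [le_div_iff₀ hε]; linarith
          have hmp : 0 ≤ (m : ℝ) - p := by
            have : (2 : ℝ) ≤ m := by exact_mod_cast hm
            linarith
          have h2 : (1 / 2 : ℝ) ^ ((m : ℝ) - p) ≤ (δ / ε) ^ ((m : ℝ) - p) :=
            Real.rpow_le_rpow (by norm_num) h1 hmp
          have h3 : (1 / 2 : ℝ) ^ (m : ℝ) ≤ (1 / 2 : ℝ) ^ ((m : ℝ) - p) :=
            Real.rpow_le_rpow_of_exponent_ge (by norm_num) (by norm_num) (by linarith)
          rw [Real.rpow_natCast] at h3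
          calc (1 : ℝ) ≤ 2 ^ m := one_le_pow₀ (by norm_num)
            _ = 4 ^ m * (1 / 2) ^ m := by
                rw [← mul_pow]; norm_num
            _ ≤ 4 ^ m * (δ / ε) ^ ((m : ℝ) - p) := by
                apply mul_le_mul_of_nonneg_left (h3.trans h2) (by positivity)

theorem gap_restrict (p t : ℝ) (f g : EuclideanSpace ℝ (Fin m) → N)
    (Ω : Set (EuclideanSpace ℝ (Fin m))) (hΩ : Convex ℝ Ω)
    (hfg : ∀ x ∈ interior Ω, f x = g x) : gap p t f Ω = gap p t g (interior Ω) := by
  have h1 : (volume : Measure (EuclideanSpace ℝ (Fin m))).restrict Ω = volume.restrict (interior Ω) :=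
    (Measure.restrict_congr_set (interior_ae_eq_of_null_frontier
      (hΩ.addHaar_frontier volume))).symm
  unfold gap
  rw [h1]
  apply setLIntegral_congr_fun isOpen_interior.measurableSet
  intro x hx
  simp only
  apply setLIntegral_congr_fun isOpen_interior.measurableSet
  intro y hy
  simp only
  rw [hfg x hx, hfg y hy]

theorem positive [MeasurableSpace N] [BorelSpace N] [CompactSpace N]
    (hm : 2 ≤ m) (p : ℝ) (hp0 : 0 ≤ p) (hp : p < 1) : ScalingHolds m p N := by
  classical
  refine ⟨4 ^ m, by positivity, ?_⟩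
  intro Ω hΩ f hf δ ε hδ hδε
  have : SecondCountableTopology N := inferInstance
  obtain ⟨D, hD⟩ : ∃ D : ℝ, ∀ a b : N, dist a b ≤ D := by
    obtain ⟨D, hD⟩ := Metric.isBounded_iff.mp (isCompact_univ (X := N)).isBounded
    exact ⟨D, fun a b => hD (mem_univ a) (mem_univ b)⟩
  let g : EuclideanSpace ℝ (Fin m) → N := fun x => if x ∈ interior Ω then f x else f 0
  have hfg : ∀ x ∈ interior Ω, f x = g x := by
    intro x hx
    simp only [g]
    rw [if_pos hx]
  have hg : Measurable g := by
    apply measurable_of_restrict_of_restrict_compl (isOpen_interior (s := Ω)).measurableSet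
    · change Measurable (fun x : interior Ω => g x)
      have : (fun x : interior Ω => g x) = (fun x : Ω => f x) ∘
          (Set.inclusion interior_subset) := by
        funext x
        exact (hfg x x.2).symm
      rw [this]
      exact hf.comp (measurable_inclusion _)
    · change Measurable (fun x : ((interior Ω)ᶜ : Set (EuclideanSpace ℝ (Fin m))) => g x)
      have : (fun x : ((interior Ω)ᶜ : Set (EuclideanSpace ℝ (Fin m))) => g x) =
          fun _ => f 0 := by
        funext x
        simp only [g]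
        rw [if_neg x.2]
      rw [this]
      exact measurable_const
  rw [gap_restrict p ε f g Ω hΩ hfg, gap_restrict p δ f g Ω hΩ hfg]
  exact scaling_measurable hm D hD p hp0 hp g hg (interior Ω) hΩ.interior
    isOpen_interior.measurableSet δ ε hδ hδε

end general

section negative

/-- tail integral of the inverse square -/
theorem lintegral_tail (r : ℝ) (hr : 0 < r) :
    ∫⁻ w : ℝ, (Ici r).indicator (fun w => ENNReal.ofReal (1 / w ^ 2)) w = ENNReal.ofReal (1 / r) := by
  rw [lintegral_indicator measurableSet_Ici, setLIntegral_congr (Ioi_ae_eq_Ici (a := r)).symm]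
  have h1 : IntegrableOn (fun w : ℝ => w ^ (-2 : ℝ)) (Ioi r) :=
    integrableOn_Ioi_rpow_of_lt (by norm_num) hr
  have h2 : ∫ w in Ioi r, w ^ (-2 : ℝ) = 1 / r := by
    rw [integral_Ioi_rpow_of_lt (by norm_num) hr]
    rw [show (-2 : ℝ) + 1 = -1 by norm_num, Real.rpow_neg_one]
    field_simp
  rw [← h2, ofReal_integral_eq_lintegral_ofReal h1 (by
    filter_upwards [ae_restrict_mem measurableSet_Ioi] with w hw
    have : (0:ℝ) < w := hr.trans hw
    simp only [Pi.zero_apply]
    positivity)]
  apply setLIntegral_congr_fun measurableSet_Ioi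
  intro w hw
  have hw0 : (0:ℝ) < w := hr.trans hw
  simp only
  congr 1
  rw [Real.rpow_neg hw0.le, one_div]
  congr 1
  rw [← Real.rpow_natCast w 2]
  norm_num

theorem lintegral_far (u r : ℝ) (hr : 0 < r) :
    ∫⁻ v : ℝ, (if r ≤ |v - u| then ENNReal.ofReal (1 / |v - u| ^ 2) else 0) ≤
      ENNReal.ofReal (2 / r) := by
  let h : ℝ → ℝ≥0∞ := (Ici r).indicator (fun w => ENNReal.ofReal (1 / w ^ 2))
  have hmeas : Measurable h := by
    apply Measurable.indicator _ measurableSet_Ici
    apply Measurable.ennreal_ofReal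
    exact measurable_const.div (measurable_id.pow_const 2)
  have hle : ∀ v : ℝ, (if r ≤ |v - u| then ENNReal.ofReal (1 / |v - u| ^ 2) else 0) ≤
      h (v - u) + h (u - v) := by
    intro v
    split_ifs with hv
    · rcases le_total 0 (v - u) with h0 | h0
      · rw [abs_of_nonneg h0] at hv ⊢
        have : h (v - u) = ENNReal.ofReal (1 / (v - u) ^ 2) := indicator_of_mem hv _
        rw [this]
        exact le_add_right le_rfl
      · rw [abs_of_nonpos h0] at hv ⊢
        have h1 : h (u - v) = ENNReal.ofReal (1 / (u - v) ^ 2) :=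
          indicator_of_mem (show r ≤ u - v by linarith) _
        rw [h1]
        rw [show -(v - u) = u - v by ring]
        exact le_add_left le_rfl
    · exact zero_le
  calc ∫⁻ v : ℝ, (if r ≤ |v - u| then ENNReal.ofReal (1 / |v - u| ^ 2) else 0)
      ≤ ∫⁻ v : ℝ, (h (v - u) + h (u - v)) := lintegral_mono hle
    _ = (∫⁻ v : ℝ, h (v - u)) + ∫⁻ v : ℝ, h (u - v) := by
        rw [lintegral_add_left]
        exact hmeas.comp (measurable_id.sub_const u)
    _ = ENNReal.ofReal (1 / r) + ENNReal.ofReal (1 / r) := by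
        rw [lintegral_sub_right_eq_self (μ := (volume : Measure ℝ)) h u,
          lintegral_sub_left_eq_self (μ := (volume : Measure ℝ)) h u, lintegral_tail r hr]
    _ = ENNReal.ofReal (2 / r) := by
        rw [← ENNReal.ofReal_add (by positivity) (by positivity)]
        congr 1
        ring

theorem lintegral_inv (a b : ℝ) (ha : 0 < a) (hab : a ≤ b) :
    ∫⁻ u in Ioo a b, ENNReal.ofReal (1 / u) = ENNReal.ofReal (Real.log (b / a)) := by
  rw [setLIntegral_congr (Ioo_ae_eq_Ioc (a := a) (b := b))]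
  have h0 : (0:ℝ) ∉ uIcc a b := by
    rw [uIcc_of_le hab]
    intro h
    exact absurd h.1 (not_le.mpr ha)
  rw [← integral_one_div h0, intervalIntegral.integral_of_le hab,
    ofReal_integral_eq_lintegral_ofReal]
  · have : IntervalIntegrable (fun x : ℝ => 1 / x) volume a b := by
      apply intervalIntegral.intervalIntegrable_one_div
      · intro x hx h
        rw [h] at hx
        exact h0 hx
      · exact continuousOn_id
    exact (intervalIntegrable_iff_integrableOn_Ioc_of_le hab).mp this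
  · filter_upwards [ae_restrict_mem measurableSet_Ioc] with w hw
    have : (0:ℝ) < w := ha.trans hw.1
    simp only [Pi.zero_apply]
    positivity

/-- identification of the one-dimensional Euclidean space with the line -/
noncomputable def e1 : EuclideanSpace ℝ (Fin 1) ≃ᵐ ℝ :=
  (MeasurableEquiv.toLp 2 (Fin 1 → ℝ)).symm.trans (MeasurableEquiv.funUnique (Fin 1) ℝ)

theorem e1_apply (x : EuclideanSpace ℝ (Fin 1)) : e1 x = x 0 := rfl

theorem e1_mp : MeasurePreserving e1 (volume : Measure (EuclideanSpace ℝ (Fin 1))) volume :=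
  (EuclideanSpace.volume_preserving_symm_measurableEquiv_toLp (Fin 1)).trans
    (volume_preserving_funUnique (Fin 1) ℝ)

variable {N : Type*} [MetricSpace N]

/-- one-dimensional kernel -/
noncomputable def Ψ (p t : ℝ) (g : ℝ → N) (u v : ℝ) : ℝ≥0∞ :=
  if t ≤ dist (g v) (g u) then ENNReal.ofReal ((dist (g v) (g u) - t) ^ p / |v - u| ^ 2) else 0

theorem gap_one_dim (p t : ℝ) (g : ℝ → N) (S : Set ℝ) :
    gap p t (fun x : EuclideanSpace ℝ (Fin 1) => g (x 0)) (e1 ⁻¹' S) =
      ∫⁻ u in S, ∫⁻ v in S, Ψ p t g u v := by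
  unfold gap
  rw [← e1_mp.setLIntegral_comp_preimage_emb e1.measurableEmbedding]
  apply lintegral_congr
  intro x
  rw [← e1_mp.setLIntegral_comp_preimage_emb e1.measurableEmbedding]
  apply lintegral_congr
  intro y
  have : ‖y - x‖ = |y 0 - x 0| := by
    simp [EuclideanSpace.norm_eq, Real.sqrt_sq_eq_abs]
  simp only [Ψ, e1_apply, this, mul_one]

theorem convex_strip (S : Set ℝ) (hS : Convex ℝ S) : Convex ℝ (e1 ⁻¹' S) := by
  intro x hx y hy a b ha hb hab
  have h1 : e1 (a • x + b • y) = a • e1 x + b • e1 y := rfl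
  rw [mem_preimage, h1]
  exact hS hx hy ha hb hab

/-- Upper bound for the gap integral of a path. -/
theorem upper (p δ D : ℝ) (hp0 : 0 ≤ p) (hp : p < 1) (hδ : 0 < δ) (a b : N)
    (hD0 : 0 ≤ D) (hD : ∀ a b : N, dist a b ≤ D) (γ : Path a b) :
    ∃ c : ℝ, 0 < c ∧ ∀ L : ℝ, 1 ≤ L →
      ∫⁻ u in Ioo (-L) L, ∫⁻ v in Ioo (-L) L, Ψ p δ γ.extend u v ≤
        ENNReal.ofReal ((1 + D) * (6 / c + 4 * Real.log L)) := by
  obtain ⟨c, hc, hcu⟩ := Metric.uniformContinuous_iff.mp γ.uniformContinuous_extend δ hδ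
  refine ⟨c, hc, ?_⟩
  intro L hL
  let r : ℝ → ℝ := fun u => max c (max (-u) (u - 1))
  have hrc : ∀ u, c ≤ r u := fun u => le_max_left _ _
  have hrpos : ∀ u, 0 < r u := fun u => lt_of_lt_of_le hc (hrc u)
  have hfar : ∀ u v : ℝ, δ ≤ dist (γ.extend v) (γ.extend u) → r u ≤ |v - u| := by
    intro u v hdist
    apply max_le
    · by_contra hlt
      have := hcu (show dist v u < c by rw [Real.dist_eq]; exact not_le.mp hlt)
      linarith
    · apply max_le
      · by_contra hlt
        have h1 := not_le.mp hlt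
        have h2 : u ≤ 0 := by
          have := abs_nonneg (v - u)
          linarith
        have h3 : v ≤ 0 := by
          have := le_abs_self (v - u)
          linarith
        rw [γ.extend_of_le_zero h2, γ.extend_of_le_zero h3, dist_self] at hdist
        linarith
      · by_contra hlt
        have h1 := not_le.mp hlt
        have h2 : 1 ≤ u := by
          have := abs_nonneg (v - u)
          linarith
        have h3 : 1 ≤ v := by
          have := neg_abs_le (v - u)
          linarith
        rw [γ.extend_of_one_le h2, γ.extend_of_one_le h3, dist_self] at hdist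
        linarith
  have hinner : ∀ u : ℝ, ∫⁻ v in Ioo (-L) L, Ψ p δ γ.extend u v ≤
      ENNReal.ofReal (1 + D) * ENNReal.ofReal (2 / r u) := by
    intro u
    calc ∫⁻ v in Ioo (-L) L, Ψ p δ γ.extend u v ≤ ∫⁻ v, Ψ p δ γ.extend u v :=
          setLIntegral_le_lintegral _ _
      _ ≤ ∫⁻ v, ENNReal.ofReal (1 + D) *
            (if r u ≤ |v - u| then ENNReal.ofReal (1 / |v - u| ^ 2) else 0) := by
          apply lintegral_mono
          intro v
          simp only [Ψ]
          split_ifs with h1 h2 h2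
          · rw [← ENNReal.ofReal_mul (by positivity), mul_one_div]
            apply ENNReal.ofReal_le_ofReal
            apply div_le_div_of_nonneg_right _ (by positivity)
            have h3 : 0 ≤ dist (γ.extend v) (γ.extend u) - δ := by linarith
            have h4 : dist (γ.extend v) (γ.extend u) - δ ≤ 1 + D := by
              have := hD (γ.extend v) (γ.extend u)
              linarith
            calc (dist (γ.extend v) (γ.extend u) - δ) ^ p ≤ (1 + D) ^ p :=
                  Real.rpow_le_rpow h3 h4 hp0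
              _ ≤ (1 + D) ^ (1 : ℝ) :=
                  Real.rpow_le_rpow_of_exponent_le (by linarith) hp.le
              _ = 1 + D := Real.rpow_one _
          · exact absurd (hfar u v h1) h2
          · exact zero_le
          · exact zero_le
      _ = ENNReal.ofReal (1 + D) *
            ∫⁻ v, (if r u ≤ |v - u| then ENNReal.ofReal (1 / |v - u| ^ 2) else 0) :=
          lintegral_const_mul' _ _ ENNReal.ofReal_ne_top
      _ ≤ ENNReal.ofReal (1 + D) * ENNReal.ofReal (2 / r u) := by
          apply mul_le_mul_right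
          exact lintegral_far u (r u) (hrpos u)
  let h : ℝ → ℝ≥0∞ := (Ioo 1 L).indicator (fun w => ENNReal.ofReal (1 / w))
  have hmeas : Measurable h := by
    apply Measurable.indicator _ measurableSet_Ioo
    apply Measurable.ennreal_ofReal
    exact measurable_const.div measurable_id
  have hhint : ∫⁻ w, h w = ENNReal.ofReal (Real.log L) := by
    rw [lintegral_indicator measurableSet_Ioo, lintegral_inv 1 L one_pos hL, div_one]
  let h0 : ℝ → ℝ≥0∞ := (Icc (-1 : ℝ) 2).indicator (fun _ => ENNReal.ofReal (2 / c))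
  have h0int : ∫⁻ w, h0 w = ENNReal.ofReal (6 / c) := by
    rw [lintegral_indicator measurableSet_Icc, setLIntegral_const, Real.volume_Icc,
      ← ENNReal.ofReal_mul (by positivity)]
    congr 1
    ring
  have hmeas0 : Measurable h0 := measurable_const.indicator measurableSet_Icc
  have hpt : ∀ u ∈ Ioo (-L) L, ENNReal.ofReal (2 / r u) ≤
      h0 u + (2 * h (-u) + 2 * h (u - 1)) := by
    intro u hu
    by_cases hA : u ∈ Icc (-1 : ℝ) 2
    · have : h0 u = ENNReal.ofReal (2 / c) := indicator_of_mem hA _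
      rw [this]
      refine le_add_right ?_
      apply ENNReal.ofReal_le_ofReal
      exact div_le_div_of_nonneg_left (by norm_num) hc (hrc u)
    · have two_eq : (2 : ℝ≥0∞) = ENNReal.ofReal 2 := by simp
      rcases lt_or_ge u (-1) with h1 | h1
      · have h2 : h (-u) = ENNReal.ofReal (1 / (-u)) :=
          indicator_of_mem (show -u ∈ Ioo 1 L from ⟨by linarith, by linarith [hu.1]⟩) _
        rw [h2]
        refine le_add_left (le_add_right ?_)
        rw [two_eq, ← ENNReal.ofReal_mul (by norm_num), mul_one_div]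
        apply ENNReal.ofReal_le_ofReal
        apply div_le_div_of_nonneg_left (by norm_num) (by linarith)
        exact (le_max_left _ _).trans (le_max_right _ _)
      · have h3 : 2 < u := by
          by_contra hcon
          exact hA ⟨h1, not_lt.mp hcon⟩
        have h2 : h (u - 1) = ENNReal.ofReal (1 / (u - 1)) :=
          indicator_of_mem (show u - 1 ∈ Ioo 1 L from ⟨by linarith, by linarith [hu.2]⟩) _
        rw [h2]
        refine le_add_left (le_add_left ?_)
        rw [two_eq, ← ENNReal.ofReal_mul (by norm_num), mul_one_div]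
        apply ENNReal.ofReal_le_ofReal
        apply div_le_div_of_nonneg_left (by norm_num) (by linarith)
        exact (le_max_right _ _).trans (le_max_right _ _)
  have hsum : ∫⁻ u in Ioo (-L) L, ENNReal.ofReal (2 / r u) ≤
      ENNReal.ofReal (6 / c + 4 * Real.log L) := by
    have hlog : 0 ≤ Real.log L := Real.log_nonneg hL
    calc ∫⁻ u in Ioo (-L) L, ENNReal.ofReal (2 / r u)
        ≤ ∫⁻ u in Ioo (-L) L, (h0 u + (2 * h (-u) + 2 * h (u - 1))) :=
          setLIntegral_mono' measurableSet_Ioo hpt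
      _ ≤ ∫⁻ u, (h0 u + (2 * h (-u) + 2 * h (u - 1))) := setLIntegral_le_lintegral _ _
      _ = (∫⁻ u, h0 u) + ((∫⁻ u, 2 * h (-u)) + ∫⁻ u, 2 * h (u - 1)) := by
          rw [lintegral_add_left hmeas0, lintegral_add_left]
          exact (hmeas.comp measurable_neg).const_mul 2
      _ = ENNReal.ofReal (6 / c) + (2 * ENNReal.ofReal (Real.log L) +
            2 * ENNReal.ofReal (Real.log L)) := by
          rw [h0int, lintegral_const_mul' _ _ (by simp), lintegral_const_mul' _ _ (by simp),
            lintegral_neg_eq_self (μ := (volume : Measure ℝ)) h,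
            lintegral_sub_right_eq_self (μ := (volume : Measure ℝ)) h 1, hhint]
      _ = ENNReal.ofReal (6 / c + 4 * Real.log L) := by
          have two_eq : (2 : ℝ≥0∞) = ENNReal.ofReal 2 := by simp
          rw [two_eq, ← ENNReal.ofReal_mul (by norm_num), ← ENNReal.ofReal_add (by positivity)
            (by positivity), ← ENNReal.ofReal_add (by positivity) (by positivity)]
          congr 1
          ring
  calc ∫⁻ u in Ioo (-L) L, ∫⁻ v in Ioo (-L) L, Ψ p δ γ.extend u v
      ≤ ∫⁻ u in Ioo (-L) L, ENNReal.ofReal (1 + D) * ENNReal.ofReal (2 / r u) :=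
        lintegral_mono hinner
    _ = ENNReal.ofReal (1 + D) * ∫⁻ u in Ioo (-L) L, ENNReal.ofReal (2 / r u) :=
        lintegral_const_mul' _ _ ENNReal.ofReal_ne_top
    _ ≤ ENNReal.ofReal (1 + D) * ENNReal.ofReal (6 / c + 4 * Real.log L) := by
        apply mul_le_mul_right
        exact hsum
    _ = ENNReal.ofReal ((1 + D) * (6 / c + 4 * Real.log L)) := by
        rw [← ENNReal.ofReal_mul (by linarith)]

/-- Lower bound for the gap integral of a path. -/
theorem lower (p ε : ℝ) (hε : 0 < ε) (a b : N) (γ : Path a b)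
    (hab : dist a b = 2 * ε) (L : ℝ) (hL : 2 ≤ L) :
    ENNReal.ofReal (ε ^ p / 9 * Real.log (L / 2)) ≤
      ∫⁻ u in Ioo (-L) L, ∫⁻ v in Ioo (-L) L, Ψ p ε γ.extend u v := by
  have hinner : ∀ u ∈ Ioo (-(L / 2)) (-1), ENNReal.ofReal (ε ^ p / 9) * ENNReal.ofReal (1 / (-u)) ≤
      ∫⁻ v in Ioo (-L) L, Ψ p ε γ.extend u v := by
    intro u hu
    have hu0 : 0 < -u := by linarith [hu.2]
    have hsub : Ioo (-u) (2 * (-u)) ⊆ Ioo (-L) L := by
      intro v hv
      exact ⟨by linarith [hv.1, hu.1], by linarith [hv.2, hu.1]⟩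
    calc ENNReal.ofReal (ε ^ p / 9) * ENNReal.ofReal (1 / (-u))
        = ∫⁻ v in Ioo (-u) (2 * (-u)), ENNReal.ofReal (ε ^ p / (3 * (-u)) ^ 2) := by
          rw [setLIntegral_const, Real.volume_Ioo, ← ENNReal.ofReal_mul (by positivity),
            ← ENNReal.ofReal_mul (by positivity)]
          congr 1
          field_simp
          ring
      _ ≤ ∫⁻ v in Ioo (-u) (2 * (-u)), Ψ p ε γ.extend u v := by
          apply setLIntegral_mono' measurableSet_Ioo
          intro v hv
          have h1 : γ.extend u = a := γ.extend_of_le_zero (by linarith)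
          have h2 : γ.extend v = b := γ.extend_of_one_le (by linarith [hv.1, hu.2])
          simp only [Ψ]
          rw [h1, h2, dist_comm, hab, if_pos (by linarith)]
          apply ENNReal.ofReal_le_ofReal
          rw [show 2 * ε - ε = ε by ring]
          apply div_le_div_of_nonneg_left (by positivity)
          · have : 0 < |v - u| := abs_pos.mpr (by linarith [hv.1])
            positivity
          · apply pow_le_pow_left₀ (abs_nonneg _)
            rw [abs_of_nonneg (by linarith [hv.1])]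
            linarith [hv.2]
      _ ≤ ∫⁻ v in Ioo (-L) L, Ψ p ε γ.extend u v := lintegral_mono_set hsub
  have hsub2 : Ioo (-(L / 2)) (-1) ⊆ Ioo (-L) L := by
    intro u hu
    exact ⟨by linarith [hu.1], by linarith [hu.2]⟩
  have hval : ∫⁻ u in Ioo (-(L / 2)) (-1), ENNReal.ofReal (1 / (-u)) =
      ENNReal.ofReal (Real.log (L / 2)) := by
    have h1 := lintegral_inv 1 (L / 2) one_pos (by linarith)
    rw [div_one] at h1
    rw [← h1, ← lintegral_indicator measurableSet_Ioo, ← lintegral_indicator measurableSet_Ioo,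
      ← lintegral_neg_eq_self (μ := (volume : Measure ℝ))
        ((Ioo 1 (L / 2)).indicator fun u => ENNReal.ofReal (1 / u))]
    apply lintegral_congr
    intro u
    by_cases hu : u ∈ Ioo (-(L / 2)) (-1)
    · rw [indicator_of_mem hu, indicator_of_mem
        (show -u ∈ Ioo 1 (L / 2) from ⟨by linarith [hu.2], by linarith [hu.1]⟩)]
    · rw [indicator_of_notMem hu, indicator_of_notMem]
      intro hu'
      exact hu ⟨by linarith [hu'.2], by linarith [hu'.1]⟩
  calc ENNReal.ofReal (ε ^ p / 9 * Real.log (L / 2))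
      = ENNReal.ofReal (ε ^ p / 9) * ∫⁻ u in Ioo (-(L / 2)) (-1), ENNReal.ofReal (1 / (-u)) := by
        rw [hval, ← ENNReal.ofReal_mul (by positivity)]
    _ = ∫⁻ u in Ioo (-(L / 2)) (-1), ENNReal.ofReal (ε ^ p / 9) * ENNReal.ofReal (1 / (-u)) :=
        (lintegral_const_mul' _ _ ENNReal.ofReal_ne_top).symm
    _ ≤ ∫⁻ u in Ioo (-(L / 2)) (-1), ∫⁻ v in Ioo (-L) L, Ψ p ε γ.extend u v :=
        setLIntegral_mono' measurableSet_Ioo hinner
    _ ≤ ∫⁻ u in Ioo (-L) L, ∫⁻ v in Ioo (-L) L, Ψ p ε γ.extend u v :=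
        lintegral_mono_set hsub2

theorem negative [CompactSpace N] [MeasurableSpace N] [BorelSpace N] (a b : N) (hab : a ≠ b)
    (hj : Joined a b) (p : ℝ) (hp0 : 0 ≤ p) (hp : p < 1) : ¬ ScalingHolds 1 p N := by
  rintro ⟨C, hC, hS⟩
  obtain ⟨γ⟩ := hj
  obtain ⟨D, hD⟩ : ∃ D : ℝ, ∀ a b : N, dist a b ≤ D := by
    obtain ⟨D, hD⟩ := Metric.isBounded_iff.mp (isCompact_univ (X := N)).isBounded
    exact ⟨D, fun a b => hD (mem_univ a) (mem_univ b)⟩
  have hD0 : 0 ≤ D := dist_nonneg.trans (hD a b)
  set ε : ℝ := dist a b / 2 with hεdef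
  have hε : 0 < ε := by
    have := dist_pos.mpr hab
    rw [hεdef]; linarith
  have hab2 : dist a b = 2 * ε := by rw [hεdef]; ring
  set κ : ℝ := ε ^ p / 9 with hκ
  have hκpos : 0 < κ := by rw [hκ]; positivity
  -- the choice of δ
  set X : ℝ := min (1 / 2) (κ / (8 * C * (1 + D))) with hX
  have hXpos : 0 < X := by
    rw [hX]
    apply lt_min (by norm_num)
    positivity
  have hX1 : X ≤ 1 / 2 := min_le_left _ _
  have hX2 : X ≤ κ / (8 * C * (1 + D)) := min_le_right _ _
  have h1p : 0 < 1 - p := by linarith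
  set ρ : ℝ := X ^ (1 / (1 - p)) with hρ
  have hρpos : 0 < ρ := by rw [hρ]; positivity
  have hρ1 : ρ < 1 := by
    rw [hρ]
    apply Real.rpow_lt_one hXpos.le (by linarith) (by positivity)
  have hρX : ρ ^ (1 - p) = X := by
    rw [hρ, ← Real.rpow_mul hXpos.le]
    rw [one_div, inv_mul_cancel₀ h1p.ne', Real.rpow_one]
  set δ : ℝ := ρ * ε with hδdef
  have hδ : 0 < δ := by positivity
  have hδε : δ < ε := by
    rw [hδdef]
    have := mul_lt_mul_of_pos_right hρ1 hε
    linarith
  have hratio : (δ / ε) ^ (((1 : ℕ) : ℝ) - p) = X := by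
    rw [hδdef, mul_div_assoc, div_self hε.ne', mul_one, Nat.cast_one]
    exact hρX
  obtain ⟨c, hc, hup⟩ := upper p δ D hp0 hp hδ a b hD0 hD γ
  -- the choice of L
  set T : ℝ := 2 * Real.log 2 + 6 / (4 * c) + 1 with hT
  have hlog2 : 0 < Real.log 2 := Real.log_pos (by norm_num)
  have hTpos : 0 < T := by rw [hT]; positivity
  set L : ℝ := Real.exp T with hL
  have hlogL : Real.log L = T := by rw [hL, Real.log_exp]
  have hL2 : 2 ≤ L := by
    rw [hL]
    calc (2 : ℝ) = Real.exp (Real.log 2) := (Real.exp_log (by norm_num)).symm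
      _ ≤ Real.exp T := by
        apply Real.exp_le_exp.mpr
        rw [hT]
        have : 0 < 6 / (4 * c) := by positivity
        linarith
  have hmain := hS (e1 ⁻¹' Ioo (-L) L) (convex_strip _ (convex_Ioo _ _))
    (fun x => γ.extend (x 0)) (by
      apply Continuous.measurable
      apply γ.continuous_extend.comp
      have : Continuous (fun x : EuclideanSpace ℝ (Fin 1) => x 0) := by fun_prop
      exact this.comp continuous_subtype_val) δ ε hδ hδε
  rw [gap_one_dim, gap_one_dim, hratio] at hmain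
  have h1 := (lower p ε hε a b γ hab2 L hL2).trans (hmain.trans
    (mul_le_mul_right (hup L (by linarith)) _))
  rw [← ENNReal.ofReal_mul (by positivity)] at h1
  have hrhs : 0 ≤ C * X * ((1 + D) * (6 / c + 4 * Real.log L)) := by
    rw [hlogL]; positivity
  rw [ENNReal.ofReal_le_ofReal_iff hrhs, Real.log_div (by linarith) (by norm_num), hlogL,
    ← hκ] at h1
  have h2 : C * X * (1 + D) ≤ κ / 8 := by
    have h3 : C * X * (1 + D) = X * (C * (1 + D)) := by ring
    rw [h3]
    calc X * (C * (1 + D)) ≤ κ / (8 * C * (1 + D)) * (C * (1 + D)) := by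
          apply mul_le_mul_of_nonneg_right hX2 (by positivity)
      _ = κ / 8 := by field_simp
  have h4 : C * X * ((1 + D) * (6 / c + 4 * T)) ≤ κ / 8 * (6 / c + 4 * T) := by
    calc C * X * ((1 + D) * (6 / c + 4 * T)) = (C * X * (1 + D)) * (6 / c + 4 * T) := by ring
      _ ≤ κ / 8 * (6 / c + 4 * T) := by
          apply mul_le_mul_of_nonneg_right h2 (by positivity)
  have h5 : κ * (T - Real.log 2) ≤ κ / 8 * (6 / c + 4 * T) := h1.trans h4
  have h6 : T - Real.log 2 ≤ 1 / 8 * (6 / c + 4 * T) := by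
    have : κ / 8 * (6 / c + 4 * T) = κ * (1 / 8 * (6 / c + 4 * T)) := by ring
    rw [this] at h5
    exact le_of_mul_le_mul_left h5 hκpos
  have h7 : 6 / (4 * c) = (6 / c) / 4 := by
    rw [div_div, mul_comm]
  rw [h7] at hT
  linarith

end negative

end Pool.Agent.GapScaling
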